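import Mathlib

open Bundle Set Metric Filter Topology Manifold
open scoped Manifold ContDiff ENNReal

set_option linter.unusedSectionVars false

noncomputable section

namespace Pool.Agent.Results.MP_4787eb_gt.HomotopicLength

/-- A smooth Riemannian metric on the manifold `M` of dimension `n`. -/
abbrev SmoothMetric (n : ℕ) (M : Type) [TopologicalSpace M]
    [ChartedSpace (EuclideanSpace ℝ (Fin n)) M] [IsManifold (𝓡 n) ∞ M] :=
  ContMDiffRiemannianMetric (𝓡 n) ∞ (EuclideanSpace ℝ (Fin n))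
    (fun x : M => TangentSpace (𝓡 n) x)

/-- The distance of `M` is the Riemannian distance of the smooth Riemannian metric `g`, that is
the infimum of the `g`-lengths of the `C^1` paths between two points. -/
def DistIsRiemannian {n : ℕ} {M : Type} [MetricSpace M]
    [ChartedSpace (EuclideanSpace ℝ (Fin n)) M] [IsManifold (𝓡 n) ∞ M]
    (g : SmoothMetric n M) : Prop :=
  letI : RiemannianBundle (fun x : M => TangentSpace (𝓡 n) x) := ⟨g.toRiemannianMetric⟩
  IsRiemannianManifold (𝓡 n) M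

/-- The metric space `M` is a complete Riemannian manifold of dimension `n`. -/
def IsCompleteRiemannian (n : ℕ) (M : Type) [MetricSpace M] : Prop :=
  ∃ (_ : ChartedSpace (EuclideanSpace ℝ (Fin n)) M) (_ : IsManifold (𝓡 n) ∞ M)
    (g : SmoothMetric n M), DistIsRiemannian g ∧ CompleteSpace M

/-- `γ` is a geodesic of constant speed `v`: every parameter has a neighbourhood on which `γ`
multiplies distances by `v`. -/
def IsGeodesic {M : Type} [MetricSpace M] (v : ℝ) (γ : ℝ → M) : Prop :=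
  ∀ t : ℝ, ∃ ε > 0, ∀ s u : ℝ, |s - t| < ε → |u - t| < ε → dist (γ s) (γ u) = v * |s - u|

lemma path_exists {n : ℕ} {M : Type} [MetricSpace M] (hM : IsCompleteRiemannian n M)
    {m m1 : M} {r : ℝ≥0∞} (h : edist m m1 < r) :
    ∃ (γ : C(unitInterval, M)) (l : unitInterval → unitInterval → ℝ≥0∞),
      γ 0 = m ∧ γ 1 = m1 ∧ (∀ a b, a ≤ b → edist (γ a) (γ b) ≤ l a b) ∧
      (∀ a b c, a ≤ b → b ≤ c → l a b + l b c = l a c) ∧ l 0 1 < r := by
  obtain ⟨_, _, g, hg, _⟩ := hM
  let _ : RiemannianBundle (fun x : M => TangentSpace (𝓡 n) x) := ⟨g.toRiemannianMetric⟩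
  have hR : IsRiemannianManifold (𝓡 n) M := hg
  rw [IsRiemannianManifold.out (I := 𝓡 n) m m1] at h
  obtain ⟨γ, h0, h1, hs, hl⟩ := exists_lt_of_riemannianEDist_lt h
  have hcont : Continuous (fun t : unitInterval => γ t) := hs.continuousOn.domRestrict
  refine ⟨⟨fun t => γ t, hcont⟩, fun a b => pathELength (𝓡 n) γ a b, h0, h1, ?_, ?_, hl⟩
  · intro a b hab
    rw [IsRiemannianManifold.out (I := 𝓡 n)]
    exact riemannianEDist_le_pathELength
      (hs.mono (Icc_subset_Icc a.2.1 b.2.2)) rfl rfl hab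
  · intro a b c hab hbc
    exact pathELength_add hab hbc

section cover

variable {n : ℕ} {M X : Type} [MetricSpace M] [MetricSpace X] {p : X → M}

lemma lift_dist (hloc : ∀ x : X, ∃ ε > 0, ∀ y ∈ ball x ε, ∀ z ∈ ball x ε,
      dist (p y) (p z) = dist y z)
    (τ : C(unitInterval, X)) (γ : C(unitInterval, M)) (l : unitInterval → unitInterval → ℝ≥0∞)
    (hd : ∀ a b, a ≤ b → edist (γ a) (γ b) ≤ l a b)
    (hadd : ∀ a b c, a ≤ b → b ≤ c → l a b + l b c = l a c)
    (h : ∀ t, p (τ t) = γ t) : edist (τ 0) (τ 1) ≤ l 0 1 := by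
  choose ε hε hiso using hloc
  obtain ⟨t, ht0, htm, ⟨N, hN⟩, hc⟩ := exists_monotone_Icc_subset_open_cover_unitInterval
    (c := fun i : unitInterval => τ ⁻¹' ball (τ i) (ε (τ i)))
    (fun i => isOpen_ball.preimage τ.continuous)
    (fun i _ => mem_iUnion.2 ⟨i, mem_ball_self (hε _)⟩)
  have key : ∀ k, edist (τ 0) (τ (t k)) ≤ l 0 (t k) := by
    intro k
    induction k with
    | zero => rw [ht0]; simp
    | succ k ih =>
      obtain ⟨i, hi⟩ := hc k
      have h1 : τ (t k) ∈ ball (τ i) (ε (τ i)) := hi ⟨le_rfl, htm (Nat.le_succ k)⟩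
      have h2 : τ (t (k + 1)) ∈ ball (τ i) (ε (τ i)) := hi ⟨htm (Nat.le_succ k), le_rfl⟩
      have h3 := hiso _ _ h1 _ h2
      rw [h, h] at h3
      have h4 : edist (τ (t k)) (τ (t (k + 1))) = edist (γ (t k)) (γ (t (k + 1))) := by
        rw [edist_dist, edist_dist, h3]
      calc edist (τ 0) (τ (t (k + 1))) ≤ edist (τ 0) (τ (t k)) + edist (τ (t k)) (τ (t (k + 1))) :=
            edist_triangle _ _ _
        _ ≤ l 0 (t k) + l (t k) (t (k + 1)) := by
            rw [h4]; exact add_le_add ih (hd _ _ (htm (Nat.le_succ k)))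
        _ = l 0 (t (k + 1)) := hadd _ _ _ (by rw [← ht0]; exact htm (Nat.zero_le _))
            (htm (Nat.le_succ k))
  have := key N
  rwa [hN N le_rfl] at this

lemma sheet (hM : IsCompleteRiemannian n M) (hp : IsCoveringMap p) (hs : Function.Surjective p)
    (hloc : ∀ x : X, ∃ ε > 0, ∀ y ∈ ball x ε, ∀ z ∈ ball x ε, dist (p y) (p z) = dist y z)
    (m : M) : ∃ r > 0, ∀ (τ : C(unitInterval, X)) (a b : unitInterval), a ≤ b →
      (∀ s ∈ Icc a b, p (τ s) ∈ ball m r) → dist (τ a) (τ b) ≤ 2 * r := by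
  have hne : Nonempty (p ⁻¹' {m}) := by
    obtain ⟨x, hx⟩ := hs m
    exact ⟨⟨x, hx⟩⟩
  have := (hp m).discreteTopology_fiber
  let e := (hp m).toTrivialization
  have hm : m ∈ e.baseSet := (hp m).mem_toTrivialization_baseSet
  obtain ⟨r, hr, hball⟩ := Metric.mem_nhds_iff.1 (e.open_baseSet.mem_nhds hm)
  have aux : ∀ y : X, p y ∈ ball m r →
      dist (e.toOpenPartialHomeomorph.symm (m, (e y).2)) y < r := by
    intro y hy
    have h1 : edist m (p y) < ENNReal.ofReal r := by
      rw [edist_dist, ENNReal.ofReal_lt_ofReal_iff hr, dist_comm]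
      exact hy
    obtain ⟨γ, l, h0, h1', hd, hadd, hl⟩ := path_exists hM h1
    have hγ : ∀ t, γ t ∈ e.baseSet := by
      intro t
      apply hball
      have h2 : edist (γ 0) (γ t) < ENNReal.ofReal r := by
        refine lt_of_le_of_lt (hd 0 t t.2.1) (lt_of_le_of_lt ?_ hl)
        rw [← hadd 0 t 1 t.2.1 t.2.2]
        exact le_self_add
      rw [h0, edist_dist, ENNReal.ofReal_lt_ofReal_iff hr, dist_comm] at h2
      exact h2
    have hcont : Continuous fun t : unitInterval =>
        e.toOpenPartialHomeomorph.symm (γ t, (e y).2) := by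
      have h3 : ContinuousOn e.toOpenPartialHomeomorph.symm e.target := e.continuousOn_invFun
      refine h3.comp_continuous (by fun_prop) ?_
      intro t
      rw [e.mem_target]
      exact hγ t
    have h4 := lift_dist hloc ⟨_, hcont⟩ γ l hd hadd (by
      intro t
      exact e.proj_symm_apply' (hγ t))
    simp only [ContinuousMap.coe_mk] at h4
    have hy' : e.toOpenPartialHomeomorph.symm (γ 1, (e y).2) = y := by
      rw [h1']
      exact e.symm_apply_mk_proj (e.mem_source.2 (hball hy))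
    rw [h0, hy'] at h4
    have h5 := lt_of_le_of_lt h4 hl
    rwa [edist_dist, ENNReal.ofReal_lt_ofReal_iff hr] at h5
  refine ⟨r, hr, ?_⟩
  intro τ a b hab hmem
  have hconst : (e (τ a)).2 = (e (τ b)).2 := by
    have h6 : ContinuousOn (fun s => (e (τ s)).2) (Icc a b) := by
      have h7 : ContinuousOn e e.source := e.continuousOn_toFun
      refine continuous_snd.comp_continuousOn (h7.comp τ.continuous.continuousOn ?_)
      intro s hs
      exact e.mem_source.2 (hball (hmem s hs))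
    have h8 : IsPreconnected (Icc a b) := isPreconnected_Icc
    exact h8.constant h6 (left_mem_Icc.2 hab) (right_mem_Icc.2 hab)
  have hA := aux (τ a) (hmem a (left_mem_Icc.2 hab))
  have hB := aux (τ b) (hmem b (right_mem_Icc.2 hab))
  rw [← hconst] at hB
  have := dist_triangle_left (τ a) (τ b) (e.toOpenPartialHomeomorph.symm (m, (e (τ a)).2))
  linarith

lemma bounded (hM : IsCompleteRiemannian n M) (hp : IsCoveringMap p) (hs : Function.Surjective p)
    (hloc : ∀ x : X, ∃ ε > 0, ∀ y ∈ ball x ε, ∀ z ∈ ball x ε, dist (p y) (p z) = dist y z)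
    (h : C(unitInterval, M)) : ∃ D : ℝ, ∀ τ : C(unitInterval, X), (∀ s, p (τ s) = h s) →
      dist (τ 0) (τ 1) ≤ D := by
  choose r hr hsheet using sheet hM hp hs hloc
  obtain ⟨t, ht0, htm, ⟨N, hN⟩, hc⟩ := exists_monotone_Icc_subset_open_cover_unitInterval
    (c := fun m : M => h ⁻¹' ball m (r m))
    (fun i => isOpen_ball.preimage h.continuous)
    (fun i _ => mem_iUnion.2 ⟨h i, mem_ball_self (hr _)⟩)
  choose i hi using hc
  refine ⟨∑ k ∈ Finset.range N, 2 * r (i k), fun τ hτ => ?_⟩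
  have key : ∀ k, dist (τ 0) (τ (t k)) ≤ ∑ j ∈ Finset.range k, 2 * r (i j) := by
    intro k
    induction k with
    | zero => rw [ht0]; simp
    | succ k ih =>
      rw [Finset.sum_range_succ]
      have h1 := hsheet (i k) τ (t k) (t (k + 1)) (htm (Nat.le_succ k)) (by
        intro s hs
        rw [hτ]
        exact hi k hs)
      linarith [dist_triangle (τ 0) (τ (t k)) (τ (t (k + 1)))]
  have := key N
  rwa [hN N le_rfl] at this

end cover

/-- `M` has no conjugate points: its universal Riemannian covering `X` is a complete simply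
connected Riemannian manifold all of whose geodesics are minimizing. -/
def NoConjugatePoints (n : ℕ) (M : Type) [MetricSpace M] : Prop :=
  ∃ (X : Type) (_ : MetricSpace X) (p : X → M),
    IsCompleteRiemannian n X ∧ SimplyConnectedSpace X ∧ IsCoveringMap p ∧
    Function.Surjective p ∧
    (∀ x : X, ∃ ε > 0, ∀ y ∈ ball x ε, ∀ z ∈ ball x ε, dist (p y) (p z) = dist y z) ∧
    ∀ γ : ℝ → X, IsGeodesic 1 γ → ∀ s t : ℝ, dist (γ s) (γ t) = |s - t|

/-- A closed geodesic: a nonconstant geodesic with period one, as a closed curve. -/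
def IsClosedGeodesic {M : Type} [MetricSpace M] (c : C(AddCircle (1 : ℝ), M)) : Prop :=
  ∃ v : ℝ, 0 < v ∧ IsGeodesic v (fun t : ℝ => c (t : AddCircle (1 : ℝ)))

/-- The length of a closed curve. -/
def length {M : Type} [MetricSpace M] (c : C(AddCircle (1 : ℝ), M)) : ℝ≥0∞ :=
  eVariationOn (fun t : ℝ => c (t : AddCircle (1 : ℝ))) (Icc 0 1)

lemma geodesic_continuous {M : Type} [MetricSpace M] {v : ℝ} {γ : ℝ → M} (h : IsGeodesic v γ) :
    Continuous γ := by
  rw [continuous_iff_continuousAt]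
  intro t
  obtain ⟨ε, hε, hd⟩ := h t
  rw [Metric.continuousAt_iff]
  intro η hη
  refine ⟨min ε (η / (|v| + 1)), by positivity, fun {s} hs => ?_⟩
  rw [Real.dist_eq] at hs
  have h1 := hd s t (lt_of_lt_of_le hs (min_le_left _ _)) (by simpa using hε)
  rw [h1]
  have h2 : |s - t| < η / (|v| + 1) := lt_of_lt_of_le hs (min_le_right _ _)
  rw [lt_div_iff₀ (by positivity)] at h2
  nlinarith [abs_nonneg (s - t), le_abs_self v, abs_nonneg v]

/-- all geodesics, of any positive speed, are minimizing -/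
lemma minimizing {X : Type} [MetricSpace X]
    (hmin : ∀ γ : ℝ → X, IsGeodesic 1 γ → ∀ s t : ℝ, dist (γ s) (γ t) = |s - t|)
    {v : ℝ} (hv : 0 < v) {γ : ℝ → X} (h : IsGeodesic v γ) (s t : ℝ) :
    dist (γ s) (γ t) = v * |s - t| := by
  have h1 : IsGeodesic 1 (fun t => γ (t / v)) := by
    intro t
    obtain ⟨ε, hε, hd⟩ := h (t / v)
    refine ⟨ε * v, by positivity, fun s u hs hu => ?_⟩
    have hs' : |s / v - t / v| < ε := by
      rw [← sub_div, abs_div, abs_of_pos hv, div_lt_iff₀ hv]; exact hs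
    have hu' : |u / v - t / v| < ε := by
      rw [← sub_div, abs_div, abs_of_pos hv, div_lt_iff₀ hv]; exact hu
    rw [hd _ _ hs' hu', ← sub_div, abs_div, abs_of_pos hv]
    field_simp
  have h2 := hmin _ h1 (v * s) (v * t)
  simp only [mul_div_cancel_left₀ _ hv.ne'] at h2
  rw [h2, ← mul_sub, abs_mul, abs_of_pos hv]

lemma speed_eq {n : ℕ} {M : Type} [MetricSpace M] (hM : IsCompleteRiemannian n M)
    (hconj : NoConjugatePoints n M) (c₀ c₁ : C(AddCircle (1 : ℝ), M)) {v₀ v₁ : ℝ}
    (hv₀ : 0 < v₀) (hv₁ : 0 < v₁)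
    (h₀ : IsGeodesic v₀ (fun t : ℝ => c₀ (t : AddCircle (1 : ℝ))))
    (h₁ : IsGeodesic v₁ (fun t : ℝ => c₁ (t : AddCircle (1 : ℝ))))
    (h : c₀.Homotopic c₁) : v₀ = v₁ := by
  obtain ⟨X, _, p, -, -, hp, hs, hloc, hmin⟩ := hconj
  obtain ⟨H⟩ := h
  let G : C(ℝ × ℝ, M) := ⟨fun z => H (projIcc 0 1 zero_le_one z.1, (z.2 : AddCircle (1 : ℝ))), by
    apply H.continuous.comp
    apply Continuous.prodMk
    · exact continuous_projIcc.comp continuous_fst
    · exact (AddCircle.continuous_mk' _).comp continuous_snd⟩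
  obtain ⟨x0, hx0⟩ := hs (G (0, 0))
  obtain ⟨F, ⟨hF0, hF⟩, -⟩ := hp.existsUnique_continuousMap_lifts G (0, 0) x0 hx0
  have hFG : ∀ z, p (F z) = G z := fun z => congrFun hF z
  -- lifts of geodesics are geodesics
  have lift_geo : ∀ (v : ℝ) (c : ℝ → M) (α : ℝ → X), Continuous α → (∀ t, p (α t) = c t) →
      IsGeodesic v c → IsGeodesic v α := by
    intro v c α hα hpα hc t
    obtain ⟨ε, hε, hiso⟩ := hloc (α t)
    obtain ⟨ε', hε', hgeo⟩ := hc t
    obtain ⟨δ, hδ, hcont⟩ := Metric.continuousAt_iff.1 (hα.continuousAt (x := t)) ε hε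
    refine ⟨min ε' δ, by positivity, fun s u hs hu => ?_⟩
    have h1 := hiso (α s) (hcont (lt_of_lt_of_le hs (min_le_right _ _)))
      (α u) (hcont (lt_of_lt_of_le hu (min_le_right _ _)))
    rw [← h1, hpα, hpα]
    exact hgeo s u (lt_of_lt_of_le hs (min_le_left _ _)) (lt_of_lt_of_le hu (min_le_left _ _))
  have hG0 : ∀ t : ℝ, G (0, t) = c₀ (t : AddCircle (1 : ℝ)) := by
    intro t
    simp [G]
  have hG1 : ∀ t : ℝ, G (1, t) = c₁ (t : AddCircle (1 : ℝ)) := by
    intro t
    simp [G]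
  have g0 := minimizing hmin hv₀ (lift_geo v₀ _ (fun t => F (0, t)) (by fun_prop)
    (fun t => (hFG _).trans (hG0 t)) h₀)
  have g1 := minimizing hmin hv₁ (lift_geo v₁ _ (fun t => F (1, t)) (by fun_prop)
    (fun t => (hFG _).trans (hG1 t)) h₁)
  let hh : C(unitInterval, M) := ⟨fun s => H (s, (0 : AddCircle (1 : ℝ))), by fun_prop⟩
  obtain ⟨D, hD⟩ := bounded hM hp hs hloc hh
  have hb : ∀ k : ℕ, dist (F (0, (k : ℝ))) (F (1, (k : ℝ))) ≤ D := by
    intro k
    have := hD ⟨fun s : unitInterval => F ((s : ℝ), (k : ℝ)), by fun_prop⟩ (by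
      intro s
      simp only [ContinuousMap.coe_mk, hFG]
      have : ((k : ℝ) : AddCircle (1 : ℝ)) = 0 := by
        rw [AddCircle.coe_eq_zero_iff]
        exact ⟨k, by simp⟩
      simp only [G, hh, ContinuousMap.coe_mk, this]
      congr 2
      exact projIcc_val zero_le_one s)
    simpa using this
  -- compare lengths
  have hcmp : ∀ k : ℕ, |v₀ * k - v₁ * k| ≤ 2 * D := by
    intro k
    have e0 := g0 0 k
    have e1 := g1 0 k
    simp only [zero_sub, abs_neg, Nat.abs_cast] at e0 e1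
    have b0 := hb 0
    have bk := hb k
    simp only [Nat.cast_zero] at b0
    rw [abs_le]
    constructor
    · have t1 := dist_triangle4 (F (1, (0 : ℝ))) (F (0, 0)) (F (0, (k : ℝ))) (F (1, (k : ℝ)))
      rw [dist_comm (F (1, (0 : ℝ))) (F (0, 0))] at t1
      linarith
    · have t1 := dist_triangle4 (F (0, (0 : ℝ))) (F (1, 0)) (F (1, (k : ℝ))) (F (0, (k : ℝ)))
      rw [dist_comm (F (1, (k : ℝ))) (F (0, (k : ℝ)))] at t1
      linarith
  by_contra hne
  have hpos : 0 < |v₀ - v₁| := abs_pos.2 (sub_ne_zero.2 hne)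
  obtain ⟨k, hk⟩ := exists_nat_gt (2 * D / |v₀ - v₁|)
  have h3 := hcmp k
  rw [← sub_mul, abs_mul, Nat.abs_cast] at h3
  rw [div_lt_iff₀ hpos] at hk
  linarith

lemma length_eq {M : Type} [MetricSpace M] {v : ℝ} (hv : 0 < v) {γ : ℝ → M}
    (h : IsGeodesic v γ) : eVariationOn γ (Icc 0 1) = ENNReal.ofReal v := by
  have loc : ∀ a b : ℝ, a ≤ b → (∀ s ∈ Icc a b, ∀ u ∈ Icc a b, dist (γ s) (γ u) = v * |s - u|) →
      eVariationOn γ (univ ∩ Icc a b) = ENNReal.ofReal (v * b - v * a) := by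
    intro a b hab hd
    apply le_antisymm
    · have h1 : eVariationOn γ (univ ∩ Icc a b) = eVariationOn (fun x : ℝ => v * x)
          (univ ∩ Icc a b) := by
        unfold eVariationOn
        congr 1
        ext q
        apply Finset.sum_congr rfl
        intro i _
        have h2 := q.2.2.2 (i + 1)
        have h3 := q.2.2.2 i
        rw [edist_dist, edist_dist, hd _ h2.2 _ h3.2, Real.dist_eq, ← mul_sub, abs_mul,
          abs_of_pos hv]
      rw [h1]
      refine (MonotoneOn.eVariationOn_eq ?_ (mem_univ _) (mem_univ _)).le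
      intro x _ y _ hxy
      exact mul_le_mul_of_nonneg_left hxy hv.le
    · have h1 := eVariationOn.edist_le γ (s := univ ∩ Icc a b) (x := b) (y := a)
        ⟨mem_univ _, hab, le_rfl⟩ ⟨mem_univ _, le_rfl, hab⟩
      rw [edist_dist, hd b ⟨hab, le_rfl⟩ a ⟨le_rfl, hab⟩, abs_of_nonneg (sub_nonneg.2 hab),
        mul_sub] at h1
      exact h1
  choose ε hε hgeo using h
  obtain ⟨t, ht0, htm, ⟨N, hN⟩, hc⟩ := exists_monotone_Icc_subset_open_cover_unitInterval
    (c := fun i : unitInterval => {s : unitInterval | |(s : ℝ) - i| < ε i})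
    (fun i => isOpen_lt (by fun_prop) continuous_const)
    (fun i _ => mem_iUnion.2 ⟨i, by simpa using hε i⟩)
  have key : ∀ k, eVariationOn γ (univ ∩ Icc 0 (t k : ℝ)) = ENNReal.ofReal (v * (t k : ℝ)) := by
    intro k
    induction k with
    | zero =>
      rw [ht0]
      have := loc 0 0 le_rfl (by
        rintro s ⟨hs1, hs2⟩ u ⟨hu1, hu2⟩
        have hs : s = 0 := le_antisymm hs2 hs1
        have hu : u = 0 := le_antisymm hu2 hu1
        simp [hs, hu])
      simpa using this
    | succ k ih =>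
      obtain ⟨i, hi⟩ := hc k
      have hle : (t k : ℝ) ≤ t (k + 1) := htm (Nat.le_succ k)
      rw [← eVariationOn.Icc_add_Icc γ (s := univ) (t k).2.1 hle (mem_univ _), ih,
        loc _ _ hle (by
          rintro s ⟨hs1, hs2⟩ u ⟨hu1, hu2⟩
          have hs3 : (⟨s, (t k).2.1.trans hs1, hs2.trans (t (k + 1)).2.2⟩ : unitInterval) ∈
            Icc (t k) (t (k + 1)) := ⟨hs1, hs2⟩
          have hu3 : (⟨u, (t k).2.1.trans hu1, hu2.trans (t (k + 1)).2.2⟩ : unitInterval) ∈
            Icc (t k) (t (k + 1)) := ⟨hu1, hu2⟩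
          exact hgeo i s u (hi hs3) (hi hu3)), ← ENNReal.ofReal_add]
      · congr 1; ring
      · exact mul_nonneg hv.le (t k).2.1
      · rw [← mul_sub]; exact mul_nonneg hv.le (sub_nonneg.2 hle)
  have h9 := key N
  rw [hN N le_rfl] at h9
  simpa using h9

/-- In a complete Riemannian manifold without conjugate points any two freely homotopic closed
geodesics have the same length. -/
theorem result (n : ℕ) (M : Type) [MetricSpace M] (hM : IsCompleteRiemannian n M)
    (hconj : NoConjugatePoints n M) (c₀ c₁ : C(AddCircle (1 : ℝ), M))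
    (h₀ : IsClosedGeodesic c₀) (h₁ : IsClosedGeodesic c₁) (h : c₀.Homotopic c₁) :
    length c₀ = length c₁ := by
  obtain ⟨v₀, hv₀, g₀⟩ := h₀
  obtain ⟨v₁, hv₁, g₁⟩ := h₁
  unfold length
  rw [length_eq hv₀ g₀, length_eq hv₁ g₁, speed_eq hM hconj c₀ c₁ hv₀ hv₁ g₀ g₁ h]

end Pool.Agent.Results.MP_4787eb_gt.HomotopicLength
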